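import Pool.Agent.H78R3.TSV.Defs

/-!
# The spectral norm of a tensor: the decision problems
-/

set_option autoImplicit false

namespace Run7.h470.Spec

open Pool.Agent.H78R3.TSV

/-- The spectral norm of a real tensor of dimension `d × d × d`: the supremum of `|T(x,y,z)|` over
the unit vectors `x`, `y`, `z`. -/
noncomputable def spectralNorm {d : ℕ} (t : Fin d → Fin d → Fin d → ℝ) : ℝ :=
  sSup {r | ∃ x y z : EuclideanSpace ℝ (Fin d), ‖x‖ = 1 ∧ ‖y‖ = 1 ∧ ‖z‖ = 1 ∧
    r = |∑ i, ∑ j, ∑ k, t i j k * x i * y j * z k|}

/-- The decision problem **Spectral Norm Bound**: the input is a `d × d × d` tensor with rational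
entries (a nested list; `d` is its length) and a positive rational number `σ`; the question is
whether the spectral norm of the tensor is at most `σ`. -/
def SpectralNormBound (q : List (List (List ℚ)) × ℚ) : Prop :=
  IsCube q.1 ∧ 0 < q.2 ∧
    spectralNorm (fun i j k : Fin q.1.length => ((entry q.1 i j k : ℚ) : ℝ)) ≤ (q.2 : ℝ)

/-- The decision problem **Spectral Norm Exceed**: on the same input, the question is whether the
spectral norm of the tensor is larger than `σ`. -/
def SpectralNormExceed (q : List (List (List ℚ)) × ℚ) : Prop :=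
  IsCube q.1 ∧ 0 < q.2 ∧
    (q.2 : ℝ) < spectralNorm (fun i j k : Fin q.1.length => ((entry q.1 i j k : ℚ) : ℝ))

end Run7.h470.Spec
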