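import Pool.Agent.Run7.h470.Iso.N
import Pool.Agent.ER.Bounded

/-!
# An effective inequality for unsatisfiable systems of constraints
-/

set_option autoImplicit false

namespace Run7.h470.Spec

open Pool.Agent.R537.RN Pool.Agent.NPC Run7.h470.Iso

/-- The number of the variables. -/
def nv (S : List ER.Con) : ℕ := (ER.svars S).length

/-- The number of the squarings. -/
def KK (S : List ER.Con) : ℕ := kA (nv S + 1) S.length + kB 0 (nv S + 1) S.length + 1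

theorem cerr_congr {V V' : ℕ → ℝ} (c : ER.Con) (h : ∀ i ∈ c.vars, V i = V' i) :
    cerr V 1 c = cerr V' 1 c := by
  cases c with
  | one i => simp only [cerr]; rw [h i (by simp [ER.Con.vars])]
  | add i j k => simp only [cerr]; rw [h i (by simp [ER.Con.vars]), h j (by simp [ER.Con.vars]),
      h k (by simp [ER.Con.vars])]
  | mul i j k => simp only [cerr]; rw [h i (by simp [ER.Con.vars]), h j (by simp [ER.Con.vars]),
      h k (by simp [ER.Con.vars])]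

theorem qsum_congr {V V' : ℕ → ℝ} {S : List ER.Con} (h : ∀ i ∈ ER.svars S, V i = V' i) :
    qsum V 1 S = qsum V' 1 S := by
  unfold qsum
  congr 1
  refine List.map_congr_left fun c hc => ?_
  rw [cerr_congr c fun i hi => h i (ER.mem_svars hc hi)]

theorem gap {S : List ER.Con} (hS : ¬ ER.Sat S) (w : ℕ → ℝ) (b : ℝ) (hb : 2 ≤ b)
    (hw : ∀ i ∈ ER.svars S, |w i| ≤ b) : 1 ≤ b ^ 2 ^ KK S * qsum w 1 S := by
  obtain ⟨V, hV⟩ : ∃ V, V = ER.svars S := ⟨_, rfl⟩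
  obtain ⟨r, hr⟩ : ∃ r : ℕ → Fin (nv S + 1), ∀ i ∈ ER.svars S, (r i : ℕ) = V.idxOf i ∧
      V.idxOf i < V.length := by
    refine ⟨fun i => ⟨V.idxOf i, ?_⟩, fun i hi => ⟨rfl, ?_⟩⟩
    · unfold nv
      rw [← hV]
      exact Nat.lt_succ_of_le List.idxOf_le_length
    · rw [← hV] at hi
      exact List.idxOf_lt_length_of_mem hi
  obtain ⟨loc, hloc⟩ : ∃ loc : ℕ → Fin 0 ⊕ (Fin 0 ⊕ Fin (nv S + 1)),
      ∀ i, loc i = Sum.inr (Sum.inr (r i)) := ⟨_, fun i => rfl⟩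
  have hsent : Sent2 loc S := ⟨Fin.elim0, fun z hz => hS ⟨_, hz⟩⟩
  obtain ⟨x, -, hx⟩ := normal_fwd loc S hsent
  obtain ⟨z, hz⟩ : ∃ z : Fin (nv S + 1) → ℝ, ∀ j : Fin (nv S + 1), z j =
      if (j : ℕ) < V.length then w (V.getD j 0) else 0 := ⟨_, fun j => rfl⟩
  have hb0 : 0 < b := by linarith
  obtain ⟨τ, hτ⟩ : ∃ τ, τ = b⁻¹ := ⟨_, rfl⟩
  have hτ0 : 0 < τ := by rw [hτ]; positivity
  have hτ1 : τ ≤ 1 := by rw [hτ]; exact inv_le_one_of_one_le₀ (by linarith)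
  have hzb : ∀ j, |z j| ≤ b := by
    intro j
    rw [hz]
    split_ifs with h
    · apply hw
      rw [← hV, List.getD_eq_getElem _ _ h]
      exact List.getElem_mem h
    · rw [abs_zero]; exact hb0.le
  obtain ⟨y, hy⟩ : ∃ y : Fin (nv S + 1 + 1) → ℝ, y = Fin.cons (Real.sqrt τ) fun j => τ * z j :=
    ⟨_, rfl⟩
  have hy0 : y 0 ^ 2 = τ := by rw [hy, Fin.cons_zero]; exact Real.sq_sqrt hτ0.le
  have hys : ∀ j : Fin (nv S + 1), y j.succ = τ * z j := fun j => by rw [hy, Fin.cons_succ]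
  have hyc : y ∈ cube (nv S + 1 + 1) := by
    intro j
    refine Fin.cases ?_ (fun j => ?_) j
    · rw [hy, Fin.cons_zero, abs_of_nonneg (Real.sqrt_nonneg _)]
      exact Real.sqrt_le_one.2 hτ1
    · rw [hys, abs_mul, abs_of_pos hτ0]
      calc τ * |z j| ≤ τ * b := mul_le_mul_of_nonneg_left (hzb j) hτ0.le
        _ = 1 := by rw [hτ]; exact inv_mul_cancel₀ hb0.ne'
  have h1 := hx y hyc
  have e1 : qsum (pick loc (fun j => 2 ^ 2 ^ kB 0 (nv S + 1) S.length * y 0 ^ 2 * x j) Fin.elim0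
      fun j => y j.succ) (y 0 ^ 2) S = τ ^ 4 * qsum w 1 S := by
    have e2 : (pick loc (fun j => 2 ^ 2 ^ kB 0 (nv S + 1) S.length * y 0 ^ 2 * x j) Fin.elim0
      fun j => y j.succ) = fun i => τ * z (r i) := by
      funext i
      unfold pick
      rw [hloc]
      simp only [Sum.elim_inr]
      exact hys _
    rw [e2, hy0]
    have e3 := qsum_scale τ (fun i => z (r i)) 1 S
    rw [mul_one] at e3
    rw [e3]
    congr 1
    refine qsum_congr fun i hi => ?_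
    obtain ⟨h2, h3⟩ := hr i hi
    rw [hz, h2, if_pos h3, List.getD_eq_getElem _ _ h3, List.getElem_idxOf h3]
  unfold GG at h1
  rw [e1, hy0] at h1
  obtain ⟨q, hq⟩ : ∃ q, q = qsum w 1 S := ⟨_, rfl⟩
  have hq0 : 0 ≤ q := by rw [hq]; exact qsum_nonneg _ _ _
  obtain ⟨α, hα⟩ : ∃ α, α = kA (nv S + 1) S.length := ⟨_, rfl⟩
  obtain ⟨β, hβ⟩ : ∃ β, β = kB 0 (nv S + 1) S.length := ⟨_, rfl⟩
  rw [← hq, ← hα, ← hβ] at h1
  rw [← hq]
  have hτ4 : τ ^ 4 ≤ 1 := pow_le_one₀ hτ0.le hτ1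
  have h2 : τ ^ 2 ^ α ≤ 2 ^ 2 ^ β * q := by
    have h3 : (2 : ℝ) ^ 2 ^ β * (τ ^ 4 * q) ≤ 2 ^ 2 ^ β * q := by
      apply mul_le_mul_of_nonneg_left _ (by positivity)
      calc τ ^ 4 * q ≤ 1 * q := mul_le_mul_of_nonneg_right hτ4 hq0
        _ = q := one_mul q
    linarith
  have h4 : 1 ≤ b ^ 2 ^ α * (2 ^ 2 ^ β * q) := by
    calc (1 : ℝ) = b ^ 2 ^ α * τ ^ 2 ^ α := by
          rw [← mul_pow, hτ, mul_inv_cancel₀ hb0.ne', one_pow]
      _ ≤ b ^ 2 ^ α * (2 ^ 2 ^ β * q) := mul_le_mul_of_nonneg_left h2 (by positivity)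
  have h5 : b ^ 2 ^ α * 2 ^ 2 ^ β ≤ b ^ 2 ^ KK S := by
    have h6 : 2 ^ α + 2 ^ β ≤ 2 ^ KK S := by
      have e : KK S = α + β + 1 := by rw [hα, hβ]; rfl
      rw [e, pow_succ]
      have a1 : 2 ^ α ≤ 2 ^ (α + β) := Nat.pow_le_pow_right (by norm_num) (by omega)
      have a2 : 2 ^ β ≤ 2 ^ (α + β) := Nat.pow_le_pow_right (by norm_num) (by omega)
      omega
    calc b ^ 2 ^ α * 2 ^ 2 ^ β ≤ b ^ 2 ^ α * b ^ 2 ^ β :=
          mul_le_mul_of_nonneg_left (pow_le_pow_left₀ (by norm_num) hb _) (by positivity)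
      _ = b ^ (2 ^ α + 2 ^ β) := (pow_add _ _ _).symm
      _ ≤ b ^ 2 ^ KK S := pow_le_pow_right₀ (by linarith) h6
  calc (1 : ℝ) ≤ b ^ 2 ^ α * (2 ^ 2 ^ β * q) := h4
    _ = b ^ 2 ^ α * 2 ^ 2 ^ β * q := by ring
    _ ≤ b ^ 2 ^ KK S * q := mul_le_mul_of_nonneg_right h5 hq0

theorem le_KK (S : List ER.Con) : S.length + 8 ≤ KK S := by
  unfold KK kA kap Gx
  nlinarith [Nat.zero_le (nv S), Nat.zero_le S.length]

/-- The final numerical estimate. -/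
theorem num_bound {S : List ER.Con} {b : ℝ} (hb : 2 ≤ b) :
    (S.length : ℝ) * (2 * b) ^ 2 < b ^ 2 ^ KK S := by
  have h1 : (S.length : ℝ) < 2 ^ S.length := by exact_mod_cast Nat.lt_two_pow_self
  have h2 : S.length + 2 + 2 ≤ 2 ^ KK S := by
    have h3 := le_KK S
    have h4 : KK S < 2 ^ KK S := Nat.lt_two_pow_self
    omega
  have hb0 : 0 < b := by linarith
  calc (S.length : ℝ) * (2 * b) ^ 2 < 2 ^ S.length * (2 * b) ^ 2 :=
        mul_lt_mul_of_pos_right h1 (by positivity)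
    _ = 2 ^ (S.length + 2) * b ^ 2 := by ring
    _ ≤ b ^ (S.length + 2) * b ^ 2 :=
        mul_le_mul_of_nonneg_right (pow_le_pow_left₀ (by norm_num) hb _) (by positivity)
    _ = b ^ (S.length + 2 + 2) := (pow_add _ _ _).symm
    _ ≤ b ^ 2 ^ KK S := pow_le_pow_right₀ (by linarith) h2

end Run7.h470.Spec
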