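import Pool.Agent.Run7.h470.Spec.Time
import Pool.Agent.H78R3.TSV.Mem
import Pool.Agent.H612.AR

/-!
# Membership of Spectral Norm Exceed in `∃ℝ` and of Spectral Norm Bound in `∀ℝ`
-/

set_option autoImplicit false

namespace Pool.Agent.NPC.H470Spec

open Pool.Agent.NPC Pool.Agent.NPC.ER Pool.Agent.H78R3.TSV Run7.h470.Spec
open Pool.Agent.NPC.H670R2 Pool.Agent.NPC.H78TSV
open Finset

/-- The terms of the trilinear form. -/
def tri (d : ℕ) : List Tm :=
  (List.range d).flatMap fun i => (List.range d).flatMap fun j => (List.range d).map fun k =>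
    Tm.mul (Tm.mul (Tm.mul (Tm.var (vw d i j k)) (Tm.var (4 * i))) (Tm.var (4 * j + 1)))
      (Tm.var (4 * k + 2))

/-- The trilinear form exceeds `σ`. -/
def fL (d : ℕ) : Fm := Fm.lt (Tm.var (vs d)) (sumTm (tri d))

/-- The list of the formulas. -/
def fE (q : List (List (List ℚ)) × ℚ) : List Fm :=
  fU q.1.length 0 :: fU q.1.length 1 :: fU q.1.length 2 ::
    eqRat (Tm.var (vs q.1.length)) q.2 :: fL q.1.length :: fEnt q.1

/-- The formula for Exceed. -/
def fEx (q : List (List (List ℚ)) × ℚ) : Fm :=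
  bif isCubeB q.1 && isPosB q.2 then conj (fE q) else H670R2.ff

/-- The formula for the failure of Bound. -/
def fNB (q : List (List (List ℚ)) × ℚ) : Fm :=
  bif isCubeB q.1 && isPosB q.2 then conj (fE q) else H670R2.tt

theorem sum_flatMap (l : List ℕ) (F : ℕ → List Tm) (v : ℕ → ℝ) :
    ((l.flatMap F).map (Tm.eval v)).sum = (l.map fun i => ((F i).map (Tm.eval v)).sum).sum := by
  induction l with
  | nil => simp
  | cons a l ih => simp only [List.flatMap_cons, List.map_append, List.sum_append, ih,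
      List.map_cons, List.sum_cons]

theorem holds_fL (d : ℕ) (v : ℕ → ℝ) : (fL d).Holds v ↔ v (vs d) <
    ∑ i ∈ range d, ∑ j ∈ range d, ∑ k ∈ range d,
      v (vw d i j k) * v (4 * i) * v (4 * j + 1) * v (4 * k + 2) := by
  unfold fL tri
  simp only [Fm.Holds, eval_sumTm, sum_flatMap, List.map_map, Function.comp_def, sum_list_range,
    Tm.eval]

theorem holds_fE (q : List (List (List ℚ)) × ℚ) (v : ℕ → ℝ) :
    (∀ φ ∈ fE q, φ.Holds v) ↔ (fU q.1.length 0).Holds v ∧ (fU q.1.length 1).Holds v ∧
      (fU q.1.length 2).Holds v ∧ (eqRat (Tm.var (vs q.1.length)) q.2).Holds v ∧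
      (fL q.1.length).Holds v ∧ (∀ φ ∈ fEnt q.1, φ.Holds v) := by
  unfold fE
  simp only [List.forall_mem_cons]

/-- **Correctness of the formula.** -/
theorem isEx_iff_etr (q : List (List (List ℚ)) × ℚ) :
    IsEx q.1.length (fun i j k => ((entry q.1 i j k : ℚ) : ℝ)) (q.2 : ℝ) ↔ ETR (conj (fE q)) := by
  unfold ETR
  simp_rw [holds_conj, holds_fE, holds_fU, holds_fL, holds_fEnt, holds_eqRat]
  set d := q.1.length with hd
  constructor
  · rintro ⟨x, y, z, hx, hy, hz, g1⟩
    let v : ℕ → ℝ := fun n => if n % 4 = 0 then x (n / 4) else if n % 4 = 1 then y (n / 4) else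
      if n % 4 = 2 then z (n / 4) else
      if n / 4 = d * d * d then (q.2 : ℝ) else
        ((entry q.1 (n / 4 / d / d) (n / 4 / d % d) (n / 4 % d) : ℚ) : ℝ)
    have v0 : ∀ i, v (4 * i) = x i := by
      intro i
      simp only [v]
      rw [if_pos (by omega)]
      congr 1; omega
    have v0' : ∀ i, v (4 * i + 0) = x i := v0
    have v1 : ∀ i, v (4 * i + 1) = y i := by
      intro i
      simp only [v]
      rw [if_neg (by omega), if_pos (by omega)]
      congr 1; omega
    have v2 : ∀ i, v (4 * i + 2) = z i := by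
      intro i
      simp only [v]
      rw [if_neg (by omega), if_neg (by omega), if_pos (by omega)]
      congr 1; omega
    have v3 : v (vs d) = (q.2 : ℝ) := by
      simp only [v, vs]
      rw [if_neg (by omega), if_neg (by omega), if_neg (by omega), if_pos (by omega)]
    have v4 : ∀ i < d, ∀ j < d, ∀ k < d, v (vw d i j k) = ((entry q.1 i j k : ℚ) : ℝ) := by
      intro i hi j hj k hk
      have e0 : (4 * ((i * d + j) * d + k) + 3) / 4 = (i * d + j) * d + k := by omega
      have hd0 : 0 < d := by omega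
      have e1 : ((i * d + j) * d + k) % d = k := by
        rw [Nat.mul_comm, Nat.mul_add_mod, Nat.mod_eq_of_lt hk]
      have e2 : ((i * d + j) * d + k) / d = i * d + j := by
        rw [Nat.mul_comm, Nat.mul_add_div hd0, Nat.div_eq_of_lt hk, Nat.add_zero]
      have e3 : (i * d + j) % d = j := by
        rw [Nat.mul_comm, Nat.mul_add_mod, Nat.mod_eq_of_lt hj]
      have e4 : (i * d + j) / d = i := by
        rw [Nat.mul_comm, Nat.mul_add_div hd0, Nat.div_eq_of_lt hj, Nat.add_zero]
      have e5 : (i * d + j) * d + k ≠ d * d * d := by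
        have h5 : i * d + j < d * d := by
          calc i * d + j < i * d + d := by omega
            _ = (i + 1) * d := by ring
            _ ≤ d * d := Nat.mul_le_mul_right _ hi
        have h6 : (i * d + j) * d + k < d * d * d := by
          calc (i * d + j) * d + k < (i * d + j) * d + d := by omega
            _ = (i * d + j + 1) * d := by ring
            _ ≤ d * d * d := Nat.mul_le_mul_right _ h5
        omega
      simp only [v, vw]
      rw [if_neg (by omega), if_neg (by omega), if_neg (by omega), e0, if_neg e5, e2, e4, e1, e3]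
    refine ⟨v, ?_, ?_, ?_, v3, ?_, v4⟩
    · simp_rw [v0']; exact hx
    · simp_rw [v1]; exact hy
    · simp_rw [v2]; exact hz
    · rw [v3]
      refine lt_of_lt_of_eq g1 ?_
      unfold tv
      exact Finset.sum_congr rfl fun i hi => Finset.sum_congr rfl fun j hj =>
        Finset.sum_congr rfl fun k hk => by
          rw [v4 i (Finset.mem_range.1 hi) j (Finset.mem_range.1 hj) k (Finset.mem_range.1 hk),
            v0, v1, v2]
  · rintro ⟨v, hx, hy, hz, v3, g1, v4⟩
    simp only [Tm.eval] at v3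
    refine ⟨fun i => v (4 * i), fun i => v (4 * i + 1), fun i => v (4 * i + 2), hx, hy, hz, ?_⟩
    rw [← v3]
    refine lt_of_lt_of_eq g1 ?_
    unfold tv
    exact Finset.sum_congr rfl fun i hi => Finset.sum_congr rfl fun j hj =>
      Finset.sum_congr rfl fun k hk => by
        rw [v4 i (Finset.mem_range.1 hi) j (Finset.mem_range.1 hj) k (Finset.mem_range.1 hk)]

theorem exceed_iff_etr (q : List (List (List ℚ)) × ℚ) : SpectralNormExceed q ↔ ETR (fEx q) := by
  rw [exceed_iff]
  unfold fEx
  by_cases hq : isCubeB q.1 = true ∧ isPosB q.2 = true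
  · have hb : (isCubeB q.1 && isPosB q.2) = true := by rw [hq.1, hq.2]; rfl
    rw [hb, cond_true, ← isEx_iff_etr]
    have h1 := (isCubeB_iff _).1 hq.1
    have h2 := (isPosB_iff _).1 hq.2
    exact ⟨fun h => h.2.2, fun h => ⟨h1, h2, h⟩⟩
  · have hb : (isCubeB q.1 && isPosB q.2) = false := by
      rw [Bool.eq_false_iff]
      intro h
      exact hq (Bool.and_eq_true_iff.1 h)
    rw [hb, cond_false]
    constructor
    · rintro ⟨h1, h2, -⟩
      exact absurd ⟨(isCubeB_iff _).2 h1, (isPosB_iff _).2 h2⟩ hq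
    · intro h
      exact absurd h H670R2.not_etr_ff

theorem not_bound_iff_etr (q : List (List (List ℚ)) × ℚ) :
    ¬ SpectralNormBound q ↔ ETR (fNB q) := by
  rw [not_bound_iff]
  unfold fNB
  by_cases hq : isCubeB q.1 = true ∧ isPosB q.2 = true
  · have hb : (isCubeB q.1 && isPosB q.2) = true := by rw [hq.1, hq.2]; rfl
    rw [hb, cond_true, ← isEx_iff_etr, exceed_iff]
    have h1 := (isCubeB_iff _).1 hq.1
    have h2 := (isPosB_iff _).1 hq.2
    exact ⟨fun h => ((h.resolve_left fun h4 => h4 h1).resolve_left fun h4 => h4 h2).2.2,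
      fun h => Or.inr (Or.inr ⟨h1, h2, h⟩)⟩
  · have hb : (isCubeB q.1 && isPosB q.2) = false := by
      rw [Bool.eq_false_iff]
      intro h
      exact hq (Bool.and_eq_true_iff.1 h)
    rw [hb, cond_false]
    refine ⟨fun _ => ⟨fun _ => 0, H670R2.holds_tt _⟩, fun _ => ?_⟩
    by_cases h1 : IsCube q.1
    · by_cases h2 : 0 < q.2
      · exact absurd ⟨(isCubeB_iff _).2 h1, (isPosB_iff _).2 h2⟩ hq
      · exact Or.inr (Or.inl h2)
    · exact Or.inl h1

section

variable {α : Type} [TEnc α]

theorem poly_tri {d : α → ℕ} (hd : UPoly d) : Poly (fun a => tri (d a)) := by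
  refine Poly.flatMap (F := fun a i => (List.range (d a)).flatMap fun j =>
    (List.range (d a)).map fun k =>
      Tm.mul (Tm.mul (Tm.mul (Tm.var (vw (d a) i j k)) (Tm.var (4 * i))) (Tm.var (4 * j + 1)))
        (Tm.var (4 * k + 2))) hd.range ?_
  refine Poly.flatMap (F := fun (p : α × ℕ) j => (List.range (d p.1)).map fun k =>
      Tm.mul (Tm.mul (Tm.mul (Tm.var (vw (d p.1) p.2 j k)) (Tm.var (4 * p.2)))
        (Tm.var (4 * j + 1))) (Tm.var (4 * k + 2)))
    (hd.range.comp (Poly.fst Poly.id)) ?_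
  refine Poly.map (F := fun (p : (α × ℕ) × ℕ) k =>
      Tm.mul (Tm.mul (Tm.mul (Tm.var (vw (d p.1.1) p.1.2 p.2 k)) (Tm.var (4 * p.1.2)))
        (Tm.var (4 * p.2 + 1))) (Tm.var (4 * k + 2)))
    (hd.range.comp (Poly.fst (Poly.fst Poly.id))) ?_
  have e1 : Poly (fun p : ((α × ℕ) × ℕ) × ℕ => p.1.1.1) :=
    Poly.fst (Poly.fst (Poly.fst Poly.id))
  have e2 : Poly (fun p : ((α × ℕ) × ℕ) × ℕ => p.1.1.2) :=
    Poly.snd (Poly.fst (Poly.fst Poly.id))
  have e3 : Poly (fun p : ((α × ℕ) × ℕ) × ℕ => p.1.2) := Poly.snd (Poly.fst Poly.id)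
  have e4 : Poly (fun p : ((α × ℕ) × ℕ) × ℕ => p.2) := Poly.snd Poly.id
  exact poly_tmul (poly_tmul (poly_tmul (poly_tvar (poly_vw (hd.toPoly.comp e1) e2 e3 e4))
    (poly_lin0 e2)) (poly_lin e3 1)) (poly_lin e4 2)

theorem poly_fL {d : α → ℕ} (hd : UPoly d) : Poly (fun a => fL (d a)) :=
  H612.poly_flt (poly_tvar (poly_vs hd.toPoly)) (poly_sumTm (poly_tri hd))

theorem poly_fE : Poly fE := by
  have h1 : Poly (fun q : List (List (List ℚ)) × ℚ => q.1) := Poly.fst Poly.id
  have h2 : Poly (fun q : List (List (List ℚ)) × ℚ => q.2) := Poly.snd Poly.id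
  have hd : UPoly (fun q : List (List (List ℚ)) × ℚ => q.1.length) := UPoly.length h1
  exact Poly.cons (poly_fU hd 0) (Poly.cons (poly_fU hd 1) (Poly.cons (poly_fU hd 2)
      (Poly.cons (poly_eqRat (poly_tvar (poly_vs hd.toPoly)) h2)
        (Poly.cons (poly_fL hd) (poly_fEnt h1)))))

theorem poly_test : Poly (fun q : List (List (List ℚ)) × ℚ => isCubeB q.1 && isPosB q.2) := by
  have h1 : Poly (fun q : List (List (List ℚ)) × ℚ => q.1) := Poly.fst Poly.id
  have h2 : Poly (fun q : List (List (List ℚ)) × ℚ => q.2) := Poly.snd Poly.id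
  have hd : UPoly (fun q : List (List (List ℚ)) × ℚ => q.1.length) := UPoly.length h1
  refine Poly.and ?_ ?_
  · refine Poly.all (p := fun (q : List (List (List ℚ)) × ℚ) a =>
      decide (a.length = q.1.length) && a.all fun b => decide (b.length = q.1.length)) h1 ?_
    refine Poly.and (Poly.decide_eq (Poly.length (Poly.snd Poly.id))
      (hd.toPoly.comp (Poly.fst Poly.id))) ?_
    refine Poly.all (p := fun (r : (List (List (List ℚ)) × ℚ) × List (List ℚ)) b =>
      decide (b.length = r.1.1.length)) (Poly.snd Poly.id) ?_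
    exact Poly.decide_eq (Poly.length (Poly.snd Poly.id))
      (hd.toPoly.comp (Poly.fst (Poly.fst Poly.id)))
  · exact Poly.and (Poly.not (poly_isNeg (poly_ratNum h2)))
      (Poly.not (Poly.decide_eq (poly_natAbs (poly_ratNum h2)) (Poly.const 0)))

theorem poly_fEx : Poly fEx := Poly.cond poly_test (poly_conj poly_fE) (Poly.const _)

theorem poly_fNB : Poly fNB := Poly.cond poly_test (poly_conj poly_fE) (Poly.const _)

end

/-- Spectral Norm Exceed belongs to `∃ℝ`. -/
theorem exceed_mem : InER (lang SpectralNormExceed) :=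
  ER.InER.of_poly poly_fEx exceed_iff_etr

/-- Spectral Norm Bound belongs to `∀ℝ`. -/
theorem bound_mem : InAR (lang SpectralNormBound) :=
  InAR.of_poly poly_fNB not_bound_iff_etr

end Pool.Agent.NPC.H470Spec
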