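import Pool.Agent.Run7.h470.Spec.Gap
import Pool.Agent.H78R3.TSV.Red

/-!
# The open quadratic encoding of a system of constraints
-/

set_option autoImplicit false

namespace Run7.h470.Spec

open Pool.Agent.R537.RN Pool.Agent.NPC Pool.Agent.H78R3.TSV

/-- The index of the scale. -/
def wi (S : List ER.Con) : ℕ := 3 * nv S + KK S + 1

/-- The number of the variables of the encoding. -/
def vn (S : List ER.Con) : ℕ := 3 * nv S + KK S + 2

/-- The quadratic constraint of a constraint, for the scaled variables. -/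
def scon (V : List ℕ) (m W : ℕ) : ER.Con → QC
  | ER.Con.one i => ((1, ix V i + m, 0), (-1, W, 0), (0, 0, 0))
  | ER.Con.add i j k => ((1, ix V i + m, 0), (1, ix V j + m, 0), (-1, ix V k + m, 0))
  | ER.Con.mul i j k => ((1, ix V i + m, ix V j), (-1, ix V k + m, 0), (0, 0, 0))

/-- The sum of squares. -/
def gA (m r : ℕ) : QC := ((1, 2 * m + 2 + r, 0), (-2, 2 * m + 1 + r, 0), (-1, r + 1, r + 1))

/-- The squarings. -/
def gB (m r : ℕ) : QC := ((1, 3 * m + 2 + r, 0), (-1, 3 * m + 1 + r, 3 * m + 1 + r), (0, 0, 0))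

/-- The scaled variables. -/
def gC (m W a : ℕ) : QC := ((1, a + 1 + m, 0), (-1, W, a + 1), (0, 0, 0))

/-- The first constraint. -/
def gD (m : ℕ) : QC := ((1, 2 * m + 1, 0), (-4, 0, 0), (0, 0, 0))

/-- The quadratic system. -/
def gsys (S : List ER.Con) : List QC :=
  gD (nv S) :: ((List.range (nv S)).map (gA (nv S)) ++ ((List.range (KK S)).map (gB (nv S)) ++
    ((List.range (nv S)).map (gC (nv S) (wi S)) ++ S.map (scon (ER.svars S) (nv S) (wi S)))))

theorem gsys_ne_nil (S : List ER.Con) : gsys S ≠ [] := by simp [gsys]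

theorem vn_pos (S : List ER.Con) : 0 < vn S := by unfold vn; omega

theorem mem_gsys {S : List ER.Con} {g : QC} : g ∈ gsys S ↔ g = gD (nv S) ∨
    (∃ r < nv S, gA (nv S) r = g) ∨ (∃ r < KK S, gB (nv S) r = g) ∨
    (∃ a < nv S, gC (nv S) (wi S) a = g) ∨
    ∃ c ∈ S, scon (ER.svars S) (nv S) (wi S) c = g := by
  unfold gsys
  simp only [List.mem_cons, List.mem_append, List.mem_map, List.mem_range]

theorem ix_le {S : List ER.Con} {c : ER.Con} (hc : c ∈ S) {i : ℕ} (hi : i ∈ c.vars) :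
    ix (ER.svars S) i ≤ nv S := by
  unfold ix nv
  have := List.idxOf_lt_length_of_mem (ER.mem_svars hc hi)
  omega

theorem gsys_ok (S : List ER.Con) : ∀ g ∈ gsys S, GOk (vn S) g := by
  intro g hg
  rw [mem_gsys] at hg
  rcases hg with rfl | ⟨r, hr, rfl⟩ | ⟨r, hr, rfl⟩ | ⟨a, ha, rfl⟩ | ⟨c, hc, rfl⟩
  · refine ⟨⟨by simp [gD], ?_, ?_⟩, ⟨by simp [gD], ?_, ?_⟩, ⟨by simp [gD], ?_, ?_⟩⟩ <;>
      simp only [gD, vn] <;> omega
  · refine ⟨⟨by simp [gA], ?_, ?_⟩, ⟨by simp [gA], ?_, ?_⟩, ⟨by simp [gA], ?_, ?_⟩⟩ <;>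
      simp only [gA, vn] <;> omega
  · refine ⟨⟨by simp [gB], ?_, ?_⟩, ⟨by simp [gB], ?_, ?_⟩, ⟨by simp [gB], ?_, ?_⟩⟩ <;>
      simp only [gB, vn] <;> omega
  · refine ⟨⟨by simp [gC], ?_, ?_⟩, ⟨by simp [gC], ?_, ?_⟩, ⟨by simp [gC], ?_, ?_⟩⟩ <;>
      simp only [gC, vn, wi] <;> omega
  · cases c with
    | one i =>
      have h1 := ix_le hc (i := i) (by simp [ER.Con.vars])
      refine ⟨⟨by simp [scon], ?_, ?_⟩, ⟨by simp [scon], ?_, ?_⟩, ⟨by simp [scon], ?_, ?_⟩⟩ <;>
        simp only [scon, vn, wi] <;> omega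
    | add i j k =>
      have h1 := ix_le hc (i := i) (by simp [ER.Con.vars])
      have h2 := ix_le hc (i := j) (by simp [ER.Con.vars])
      have h3 := ix_le hc (i := k) (by simp [ER.Con.vars])
      refine ⟨⟨by simp [scon], ?_, ?_⟩, ⟨by simp [scon], ?_, ?_⟩, ⟨by simp [scon], ?_, ?_⟩⟩ <;>
        simp only [scon, vn] <;> omega
    | mul i j k =>
      have h1 := ix_le hc (i := i) (by simp [ER.Con.vars])
      have h2 := ix_le hc (i := j) (by simp [ER.Con.vars])
      have h3 := ix_le hc (i := k) (by simp [ER.Con.vars])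
      refine ⟨⟨by simp [scon], ?_, ?_⟩, ⟨by simp [scon], ?_, ?_⟩, ⟨by simp [scon], ?_, ?_⟩⟩ <;>
        simp only [scon, vn] <;> omega

/-! ### Approximate solutions -/

theorem gev_ite (x : ℕ → ℝ) (c1 c2 c3 : ℤ) (i1 j1 i2 j2 i3 j3 : ℕ) :
    gev x x ((c1, i1, j1), (c2, i2, j2), (c3, i3, j3)) =
      2 * ((c1 : ℝ) * (x i1 * x j1) + (c2 : ℝ) * (x i2 * x j2) + (c3 : ℝ) * (x i3 * x j3)) := by
  unfold gev tev bev
  ring

theorem abs_le_one_add_sq (t : ℝ) : |t| ≤ 1 + t ^ 2 := by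
  rw [← sq_abs t]
  nlinarith [sq_nonneg (|t| - 1), abs_nonneg t]

section

variable {S : List ER.Con} {x : ℕ → ℝ} (hx0 : x 0 = 1) (hx : ∀ g ∈ gsys S, |gev x x g| < 2)

include hx0 hx

theorem apx_D : 3 < x (2 * nv S + 1) := by
  have h := hx _ (mem_gsys.2 (Or.inl rfl))
  unfold gD at h
  rw [gev_ite, hx0, abs_lt] at h
  push_cast at h
  linarith [h.1]

theorem apx_A {r : ℕ} (hr : r < nv S) :
    2 * x (2 * nv S + 1 + r) + x (r + 1) ^ 2 - 1 < x (2 * nv S + 1 + (r + 1)) := by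
  have h := hx _ (mem_gsys.2 (Or.inr (Or.inl ⟨r, hr, rfl⟩)))
  unfold gA at h
  rw [gev_ite, hx0, abs_lt] at h
  push_cast at h
  have e : 2 * nv S + 1 + (r + 1) = 2 * nv S + 2 + r := by ring
  rw [e]
  linarith [h.1]

theorem apx_B {r : ℕ} (hr : r < KK S) :
    x (3 * nv S + 1 + r) ^ 2 - 1 < x (3 * nv S + 1 + (r + 1)) := by
  have h := hx _ (mem_gsys.2 (Or.inr (Or.inr (Or.inl ⟨r, hr, rfl⟩))))
  unfold gB at h
  rw [gev_ite, hx0, abs_lt] at h
  push_cast at h
  have e : 3 * nv S + 1 + (r + 1) = 3 * nv S + 2 + r := by ring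
  rw [e]
  linarith [h.1]

theorem apx_C {a : ℕ} (ha : a < nv S) : |x (a + 1 + nv S) - x (wi S) * x (a + 1)| < 1 := by
  have h := hx _ (mem_gsys.2 (Or.inr (Or.inr (Or.inr (Or.inl ⟨a, ha, rfl⟩)))))
  unfold gC at h
  rw [gev_ite, hx0, abs_lt] at h
  push_cast at h
  rw [abs_lt]
  constructor <;> linarith [h.1, h.2]

/-- The base of the tower. -/
theorem sum_lt {r : ℕ} (hr : r ≤ nv S) :
    3 + ∑ a ∈ Finset.range r, x (a + 1) ^ 2 < x (2 * nv S + 1 + r) := by
  induction r with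
  | zero =>
    simp only [Finset.range_zero, Finset.sum_empty, add_zero]
    exact apx_D hx0 hx
  | succ r ih =>
    have h1 := ih (by omega)
    have h2 := apx_A hx0 hx (r := r) (by omega)
    rw [Finset.sum_range_succ]
    have h3 : 0 ≤ ∑ a ∈ Finset.range r, x (a + 1) ^ 2 :=
      Finset.sum_nonneg fun _ _ => sq_nonneg _
    linarith

theorem tower_lt {b : ℝ} (hb : b = 2 + ∑ a ∈ Finset.range (nv S), x (a + 1) ^ 2) {r : ℕ}
    (hr : r ≤ KK S) : b ^ 2 ^ r + 1 < x (3 * nv S + 1 + r) := by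
  have hb2 : 2 ≤ b := by
    rw [hb]
    have h3 : 0 ≤ ∑ a ∈ Finset.range (nv S), x (a + 1) ^ 2 :=
      Finset.sum_nonneg fun _ _ => sq_nonneg _
    linarith
  induction r with
  | zero =>
    have h1 := sum_lt hx0 hx (le_refl (nv S))
    have e : 2 * nv S + 1 + nv S = 3 * nv S + 1 + 0 := by ring
    rw [e] at h1
    rw [pow_zero, pow_one, hb]
    linarith
  | succ r ih =>
    have h1 := ih (by omega)
    have h2 := apx_B hx0 hx (r := r) (by omega)
    have h3 : 1 ≤ b ^ 2 ^ r := one_le_pow₀ (by linarith)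
    have h4 : b ^ 2 ^ (r + 1) = b ^ 2 ^ r * b ^ 2 ^ r := by
      rw [pow_succ 2 r, pow_mul, sq]
    rw [h4]
    nlinarith

theorem sat_of_apx : ER.Sat S := by
  by_contra hS
  obtain ⟨b, hb⟩ : ∃ b : ℝ, b = 2 + ∑ a ∈ Finset.range (nv S), x (a + 1) ^ 2 := ⟨_, rfl⟩
  have hb2 : 2 ≤ b := by
    rw [hb]
    have h3 : 0 ≤ ∑ a ∈ Finset.range (nv S), x (a + 1) ^ 2 :=
      Finset.sum_nonneg fun _ _ => sq_nonneg _
    linarith
  obtain ⟨w, hw⟩ : ∃ w : ℕ → ℝ, ∀ i, w i = x (ix (ER.svars S) i) := ⟨_, fun i => rfl⟩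
  obtain ⟨X, hX⟩ : ∃ X : ℕ → ℝ, ∀ i, X i = x (ix (ER.svars S) i + nv S) := ⟨_, fun i => rfl⟩
  obtain ⟨W, hW⟩ : ∃ W, W = x (wi S) := ⟨_, rfl⟩
  have hidx : ∀ i ∈ ER.svars S, (ER.svars S).idxOf i < nv S := fun i hi =>
    List.idxOf_lt_length_of_mem hi
  have hwb : ∀ i ∈ ER.svars S, |w i| ≤ b := by
    intro i hi
    have h1 := hidx i hi
    rw [hw, hb]
    have h2 : x (ix (ER.svars S) i) ^ 2 ≤ ∑ a ∈ Finset.range (nv S), x (a + 1) ^ 2 :=
      Finset.single_le_sum (f := fun a => x (a + 1) ^ 2) (fun a _ => sq_nonneg (x (a + 1)))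
        (Finset.mem_range.2 h1)
    have h3 := abs_le_one_add_sq (x (ix (ER.svars S) i))
    linarith
  have hWb : b ^ 2 ^ KK S + 1 < W := by
    have h1 := tower_lt hx0 hx hb (le_refl (KK S))
    rw [hW]
    unfold wi
    have e : 3 * nv S + KK S + 1 = 3 * nv S + 1 + KK S := by ring
    rw [e]
    exact h1
  have hXw : ∀ i ∈ ER.svars S, |X i - W * w i| < 1 := by
    intro i hi
    have h1 := apx_C hx0 hx (hidx i hi)
    rw [hX, hW, hw]
    exact h1
  have hc : ∀ c ∈ S, |W * cerr w 1 c| ≤ 2 * b := by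
    intro c hc
    have h := hx _ (mem_gsys.2 (Or.inr (Or.inr (Or.inr (Or.inr ⟨c, hc, rfl⟩)))))
    cases c with
    | one i =>
      have hi : i ∈ ER.svars S := ER.mem_svars hc (by simp [ER.Con.vars])
      unfold scon at h
      rw [gev_ite, hx0, ← hX, ← hW, abs_lt] at h
      push_cast at h
      have h1 := abs_lt.1 (hXw i hi)
      simp only [cerr]
      rw [abs_le]
      constructor <;> nlinarith [h.1, h.2, h1.1, h1.2]
    | add i j k =>
      have hi : i ∈ ER.svars S := ER.mem_svars hc (by simp [ER.Con.vars])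
      have hj : j ∈ ER.svars S := ER.mem_svars hc (by simp [ER.Con.vars])
      have hk : k ∈ ER.svars S := ER.mem_svars hc (by simp [ER.Con.vars])
      unfold scon at h
      rw [gev_ite, hx0, ← hX, ← hX, ← hX, abs_lt] at h
      push_cast at h
      have h1 := abs_lt.1 (hXw i hi)
      have h2 := abs_lt.1 (hXw j hj)
      have h3 := abs_lt.1 (hXw k hk)
      simp only [cerr]
      rw [abs_le]
      constructor <;> nlinarith [h.1, h.2, h1.1, h1.2, h2.1, h2.2, h3.1, h3.2]
    | mul i j k =>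
      have hi : i ∈ ER.svars S := ER.mem_svars hc (by simp [ER.Con.vars])
      have hj : j ∈ ER.svars S := ER.mem_svars hc (by simp [ER.Con.vars])
      have hk : k ∈ ER.svars S := ER.mem_svars hc (by simp [ER.Con.vars])
      unfold scon at h
      rw [gev_ite, hx0, ← hX, ← hX, ← hw, abs_lt] at h
      push_cast at h
      have h3 := abs_lt.1 (hXw k hk)
      have h4 : |(W * w i - X i) * w j| ≤ 1 * b := by
        rw [abs_mul]
        apply mul_le_mul _ (hwb j hj) (abs_nonneg _) (by norm_num)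
        rw [abs_sub_comm]
        exact (hXw i hi).le
      have h5 := abs_le.1 h4
      simp only [cerr]
      have e : W * (w i * w j - 1 * w k) = (W * w i - X i) * w j + (X i * w j - X k) +
          (X k - W * w k) := by ring
      rw [e, abs_le]
      constructor <;> linarith [h.1, h.2, h5.1, h5.2, h3.1, h3.2]
  have hb0 : 0 < b := by linarith
  have hT : 1 ≤ b ^ 2 ^ KK S := one_le_pow₀ (by linarith)
  have hW0 : 0 < W := by linarith
  have hq : W ^ 2 * qsum w 1 S ≤ (S.length : ℝ) * (2 * b) ^ 2 := by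
    unfold qsum
    rw [← List.sum_map_mul_left]
    have h1 : (S.map fun c => W ^ 2 * cerr w 1 c ^ 2).sum ≤ (S.map fun _ => (2 * b) ^ 2).sum := by
      apply List.sum_le_sum
      intro c hcS
      rw [← mul_pow, ← sq_abs (W * cerr w 1 c)]
      exact pow_le_pow_left₀ (abs_nonneg _) (hc c hcS) 2
    refine h1.trans ?_
    rw [List.map_const', List.sum_replicate, nsmul_eq_mul]
  have h1 := gap hS w b hb2 hwb
  have h2 := num_bound (S := S) hb2
  have h3 : W ^ 2 ≤ b ^ 2 ^ KK S * ((S.length : ℝ) * (2 * b) ^ 2) := by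
    calc W ^ 2 = W ^ 2 * 1 := (mul_one _).symm
      _ ≤ W ^ 2 * (b ^ 2 ^ KK S * qsum w 1 S) := mul_le_mul_of_nonneg_left h1 (sq_nonneg _)
      _ = b ^ 2 ^ KK S * (W ^ 2 * qsum w 1 S) := by ring
      _ ≤ b ^ 2 ^ KK S * ((S.length : ℝ) * (2 * b) ^ 2) :=
          mul_le_mul_of_nonneg_left hq (by linarith)
  have h4 : b ^ 2 ^ KK S * ((S.length : ℝ) * (2 * b) ^ 2) < b ^ 2 ^ KK S * b ^ 2 ^ KK S :=
    mul_lt_mul_of_pos_left h2 (by linarith)
  nlinarith

end

theorem sat_of_exists {S : List ER.Con} (x : ℕ → ℝ)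
    (h : ((gsys S).map (fun g => gev x x g ^ 2)).sum < 4 * x 0 ^ 4) : ER.Sat S := by
  have hnn : ∀ r ∈ (gsys S).map (fun g => gev x x g ^ 2), 0 ≤ r := by
    intro r hr
    obtain ⟨g, _, rfl⟩ := List.mem_map.1 hr
    exact sq_nonneg _
  have hx0 : x 0 ≠ 0 := by
    intro h0
    have h1 := List.sum_nonneg hnn
    rw [h0] at h
    norm_num at h
    linarith
  have hx4 : 0 < x 0 ^ 4 := by positivity
  refine sat_of_apx (S := S) (x := fun i => x i / x 0) (div_self hx0) fun g hg => ?_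
  have e : gev (fun i => x i / x 0) (fun i => x i / x 0) g = gev x x g / x 0 ^ 2 := by
    unfold gev tev bev
    field_simp
  have h1 : gev x x g ^ 2 ≤ ((gsys S).map (fun g => gev x x g ^ 2)).sum :=
    List.single_le_sum hnn _ (List.mem_map.2 ⟨g, hg, rfl⟩)
  rw [e]
  apply abs_lt_of_sq_lt_sq _ (by norm_num)
  rw [div_pow, div_lt_iff₀ (by positivity)]
  calc gev x x g ^ 2 < 4 * x 0 ^ 4 := lt_of_le_of_lt h1 h
    _ = 2 ^ 2 * (x 0 ^ 2) ^ 2 := by ring

/-! ### Exact solutions -/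

/-- The sequence of the values of the tower. -/
noncomputable def tow (m : ℕ) (z : ℕ → ℝ) : ℕ → ℝ
  | 0 => 4
  | r + 1 => if r < m then 2 * tow m z r + z r ^ 2 else tow m z r ^ 2

theorem exists_of_sat {S : List ER.Con} (hS : ER.Sat S) :
    ∃ x : ℕ → ℝ, ((gsys S).map (fun g => gev x x g ^ 2)).sum < 4 * x 0 ^ 4 := by
  obtain ⟨w, hw⟩ := hS
  obtain ⟨V, hV⟩ : ∃ V, V = ER.svars S := ⟨_, rfl⟩
  obtain ⟨m, hm⟩ : ∃ m, m = nv S := ⟨_, rfl⟩
  obtain ⟨z, hz⟩ : ∃ z : ℕ → ℝ, z = fun a => w (V.getD a 0) := ⟨_, rfl⟩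
  obtain ⟨W, hW⟩ : ∃ W, W = tow m z (m + KK S) := ⟨_, rfl⟩
  obtain ⟨x, hx⟩ : ∃ x : ℕ → ℝ, x = fun i => if i = 0 then 1 else if i < m + 1 then z (i - 1) else
    if i < 2 * m + 1 then W * z (i - (m + 1)) else tow m z (i - (2 * m + 1)) := ⟨_, rfl⟩
  have x0 : x 0 = 1 := by simp [hx]
  have x1 : ∀ a < m, x (a + 1) = z a := by
    intro a ha
    simp only [hx]
    rw [if_neg (by omega), if_pos (by omega)]
    simp
  have x2 : ∀ a < m, x (a + 1 + m) = W * z a := by
    intro a ha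
    simp only [hx]
    rw [if_neg (by omega), if_neg (by omega), if_pos (by omega)]
    congr 2
    omega
  have x3 : ∀ r, x (2 * m + 1 + r) = tow m z r := by
    intro r
    simp only [hx]
    rw [if_neg (by omega), if_neg (by omega), if_neg (by omega)]
    congr 1
    omega
  have xW : x (wi S) = W := by
    have e : wi S = 2 * m + 1 + (m + KK S) := by unfold wi; rw [← hm]; ring
    rw [e, x3, hW]
  have xi : ∀ i ∈ V, x (ix V i) = w i ∧ x (ix V i + m) = W * w i := by
    intro i hi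
    have h1 := List.idxOf_lt_length_of_mem hi
    have h2 : V.idxOf i < m := by rw [hm]; unfold nv; rw [← hV]; exact h1
    have h3 : z (V.idxOf i) = w i := by
      rw [hz]
      simp only
      rw [List.getD_eq_getElem _ _ h1, List.getElem_idxOf h1]
    unfold ix
    exact ⟨by rw [x1 _ h2, h3], by rw [x2 _ h2, h3]⟩
  refine ⟨x, ?_⟩
  have h0 : ((gsys S).map (fun g => gev x x g ^ 2)).sum = 0 := by
    apply List.sum_eq_zero
    intro r hr
    obtain ⟨g, hg, rfl⟩ := List.mem_map.1 hr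
    have : gev x x g = 0 := by
      rw [mem_gsys, ← hm, ← hV] at hg
      rcases hg with rfl | ⟨r, hr', rfl⟩ | ⟨r, hr', rfl⟩ | ⟨a, ha, rfl⟩ | ⟨c, hc, rfl⟩
      · unfold gD
        rw [gev_ite, x0]
        have := x3 0
        rw [add_zero] at this
        rw [this]
        simp only [tow]
        push_cast
        ring
      · unfold gA
        rw [gev_ite, x0]
        have e1 := x3 (r + 1)
        have e2 := x3 r
        have e3 : 2 * m + 1 + (r + 1) = 2 * m + 2 + r := by ring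
        rw [e3] at e1
        rw [e1, e2, x1 r hr']
        simp only [tow]
        rw [if_pos hr']
        push_cast
        ring
      · unfold gB
        rw [gev_ite, x0]
        have e1 := x3 (m + r + 1)
        have e2 := x3 (m + r)
        have e3 : 2 * m + 1 + (m + r + 1) = 3 * m + 2 + r := by ring
        have e4 : 2 * m + 1 + (m + r) = 3 * m + 1 + r := by ring
        rw [e3] at e1
        rw [e4] at e2
        rw [e1, e2]
        simp only [tow]
        rw [if_neg (by omega)]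
        push_cast
        ring
      · unfold gC
        rw [gev_ite, x0, xW, x1 a ha, x2 a ha]
        push_cast
        ring
      · have hh := hw c hc
        cases c with
        | one i =>
          have hi : i ∈ V := hV ▸ ER.mem_svars hc (by simp [ER.Con.vars])
          simp only [ER.Con.Holds] at hh
          unfold scon
          rw [gev_ite, x0, xW, (xi i hi).2, hh]
          push_cast
          ring
        | add i j k =>
          have hi : i ∈ V := hV ▸ ER.mem_svars hc (by simp [ER.Con.vars])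
          have hj : j ∈ V := hV ▸ ER.mem_svars hc (by simp [ER.Con.vars])
          have hk : k ∈ V := hV ▸ ER.mem_svars hc (by simp [ER.Con.vars])
          simp only [ER.Con.Holds] at hh
          unfold scon
          rw [gev_ite, x0, (xi i hi).2, (xi j hj).2, (xi k hk).2, ← hh]
          push_cast
          ring
        | mul i j k =>
          have hi : i ∈ V := hV ▸ ER.mem_svars hc (by simp [ER.Con.vars])
          have hj : j ∈ V := hV ▸ ER.mem_svars hc (by simp [ER.Con.vars])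
          have hk : k ∈ V := hV ▸ ER.mem_svars hc (by simp [ER.Con.vars])
          simp only [ER.Con.Holds] at hh
          unfold scon
          rw [gev_ite, x0, (xi i hi).2, (xi j hj).1, (xi k hk).2, ← hh]
          push_cast
          ring
    rw [this]
    norm_num
  rw [h0, x0]
  norm_num

/-- **Correctness of the encoding.** -/
theorem exists_iff_sat (S : List ER.Con) :
    (∃ x : ℕ → ℝ, ((gsys S).map (fun g => gev x x g ^ 2)).sum < 4 * x 0 ^ 4) ↔ ER.Sat S :=
  ⟨fun ⟨x, hx⟩ => sat_of_exists x hx, exists_of_sat⟩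

end Run7.h470.Spec
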