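import Pool.Agent.H78R3.TSV.Sing

/-!
# The tensor of a quadratic system: when does the spectral norm exceed the bound?
-/

set_option autoImplicit false

namespace Run7.h470.Spec

open Finset Pool.Agent.H78R3.TSV

/-- The forms of a system together with copies of the square of the first variable. -/
def formsE (n : ℕ) (G : List QC) : List (List QT) :=
  forms n G ++ G.map (fun _ => [((1 : ℤ), ((0 : ℕ), (0 : ℕ)))])

/-- The value of a trilinear form. -/
def tv (d : ℕ) (t : ℕ → ℕ → ℕ → ℝ) (x y z : ℕ → ℝ) : ℝ :=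
  ∑ i ∈ range d, ∑ j ∈ range d, ∑ k ∈ range d, t i j k * x i * y j * z k

/-- The trilinear form exceeds `σ` on unit vectors. -/
def IsEx (d : ℕ) (t : ℕ → ℕ → ℕ → ℝ) (σ : ℝ) : Prop :=
  ∃ x y z : ℕ → ℝ, ∑ i ∈ range d, x i ^ 2 = 1 ∧ ∑ i ∈ range d, y i ^ 2 = 1 ∧
    ∑ i ∈ range d, z i ^ 2 = 1 ∧ σ < tv d t x y z

theorem S_formsE (x y x' y' : ℕ → ℝ) (n : ℕ) (G : List QC) (hG : ∀ g ∈ G, GOk n g) :
    S x y x' y' (formsE n G) =
      576 * (G.length : ℝ) ^ 2 *
        (∑ i ∈ range n, ∑ j ∈ range n, bev x y (i, j) * bev x' y' (i, j)) -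
        (G.length : ℝ) * (G.map (fun g => gev x y g * gev x' y' g)).sum +
        (G.length : ℝ) * (bev x y (0, 0) * bev x' y' (0, 0)) := by
  have h : ∀ G' : List QC, S x y x' y' (G'.map (fun _ => [((1 : ℤ), ((0 : ℕ), (0 : ℕ)))])) =
      (G'.length : ℝ) * (bev x y (0, 0) * bev x' y' (0, 0)) := by
    intro G'
    induction G' with
    | nil => simp
    | cons g G' ih =>
      rw [List.map_cons, S_cons, ih, List.length_cons, fev_cons, fev_cons, fev_nil, fev_nil]
      unfold tev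
      push_cast
      ring
  rw [formsE, S_append, S_forms x y x' y' n G hG, h]

/-- The value on the diagonal. -/
theorem S_diag (x : ℕ → ℝ) (n : ℕ) (G : List QC) (hG : ∀ g ∈ G, GOk n g) :
    S x x x x (formsE n G) = (48 * (G.length : ℝ)) ^ 2 * (∑ i ∈ range n, x i ^ 2) ^ 2 +
      (G.length : ℝ) * (4 * x 0 ^ 4 - (G.map (fun g => gev x x g ^ 2)).sum) := by
  rw [S_formsE x x x x n G hG, sum_bev]
  have h1 : (G.map (fun g => gev x x g * gev x x g)) = G.map (fun g => gev x x g ^ 2) :=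
    List.map_congr_left fun g _ => (sq _).symm
  have h2 : ∑ i ∈ range n, x i * x i = ∑ i ∈ range n, x i ^ 2 :=
    Finset.sum_congr rfl fun i _ => (sq _).symm
  rw [h1, h2]
  unfold bev
  ring

theorem fok_formsE {n : ℕ} {G : List QC} (hn : 0 < n) (hG : ∀ g ∈ G, GOk n g) :
    ∀ f ∈ formsE n G, FOk n f := by
  intro f hf
  unfold formsE at hf
  rw [List.mem_append] at hf
  rcases hf with hf | hf
  · exact fok_forms hG f hf
  · rw [List.mem_map] at hf
    obtain ⟨_, _, rfl⟩ := hf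
    intro t ht
    rw [List.mem_singleton] at ht
    subst ht
    exact ⟨hn, hn⟩

theorem tv_ten {n d : ℕ} {L : List (List QT)} (hL : ∀ f ∈ L, FOk n f) (hnd : n ≤ d)
    (x y z : ℕ → ℝ) : tv d (fun i j k => (ten L i j k : ℝ)) x y z =
      ∑ k ∈ range d, z k * fev x y (L.getD k []) := by
  have hFd : ∀ k, FOk d (L.getD k []) := fun k t ht =>
    ⟨(fok_getD hL k t ht).1.trans_le hnd, (fok_getD hL k t ht).2.trans_le hnd⟩
  unfold tv
  have e1 : ∀ i ∈ range d, ∑ j ∈ range d, ∑ k ∈ range d, (ten L i j k : ℝ) * x i * y j * z k =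
      ∑ k ∈ range d, ∑ j ∈ range d, (ten L i j k : ℝ) * x i * y j * z k :=
    fun i _ => Finset.sum_comm
  rw [Finset.sum_congr rfl e1, Finset.sum_comm]
  refine Finset.sum_congr rfl fun k _ => ?_
  rw [← sum_cf d _ (hFd k), Finset.mul_sum]
  refine Finset.sum_congr rfl fun i _ => ?_
  rw [Finset.mul_sum]
  refine Finset.sum_congr rfl fun j _ => ?_
  unfold ten
  ring

/-- Polarization. -/
theorem fev_polar (x y : ℕ → ℝ) (f : List QT) :
    fev (fun i => x i + y i) (fun i => x i + y i) f -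
      fev (fun i => x i - y i) (fun i => x i - y i) f = 4 * fev x y f := by
  induction f with
  | nil => simp
  | cons t f ih =>
    rw [fev_cons, fev_cons, fev_cons, mul_add, ← ih]
    unfold tev bev
    ring

theorem S_eq_sum {d : ℕ} (L : List (List QT)) (hL : L.length ≤ d) (x : ℕ → ℝ) :
    ∑ k ∈ range d, fev x x (L.getD k []) ^ 2 = S x x x x L := by
  unfold S
  rw [← sum_getD L hL (fun f => fev x x f * fev x x f) (by simp)]
  exact Finset.sum_congr rfl fun k _ => sq _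

theorem sum_range_mono {n d : ℕ} (hnd : n ≤ d) (x : ℕ → ℝ) :
    ∑ i ∈ range n, x i ^ 2 ≤ ∑ i ∈ range d, x i ^ 2 :=
  Finset.sum_le_sum_of_subset_of_nonneg (Finset.range_subset_range.2 hnd)
    fun _ _ _ => sq_nonneg _

section

variable {n d : ℕ} {G : List QC} (hG : ∀ g ∈ G, GOk n g) (hn : 0 < n) (hnd : n ≤ d)
  (hd : (formsE n G).length ≤ d)

include hG hn hnd hd in
theorem exists_of_isEx (h : IsEx d (fun i j k => (ten (formsE n G) i j k : ℝ))
    (48 * (G.length : ℝ))) :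
    ∃ x : ℕ → ℝ, (G.map (fun g => gev x x g ^ 2)).sum < 4 * x 0 ^ 4 := by
  obtain ⟨x, y, z, hx, hy, hz, hT⟩ := h
  by_contra hcon
  push Not at hcon
  have hm : (0 : ℝ) ≤ G.length := Nat.cast_nonneg _
  rw [tv_ten (fok_formsE hn hG) hnd] at hT
  have key : ∀ ξ : ℕ → ℝ, |∑ k ∈ range d, z k * fev ξ ξ ((formsE n G).getD k [])| ≤
      48 * (G.length : ℝ) * ∑ i ∈ range d, ξ i ^ 2 := by
    intro ξ
    have h1 := Finset.sum_mul_sq_le_sq_mul_sq (range d) z
      (fun k => fev ξ ξ ((formsE n G).getD k []))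
    rw [hz, one_mul, S_eq_sum _ hd, S_diag ξ n G hG] at h1
    have h2 := hcon ξ
    have h3 := sum_range_mono hnd ξ
    have h4 : 0 ≤ ∑ i ∈ range n, ξ i ^ 2 := Finset.sum_nonneg fun _ _ => sq_nonneg _
    have h5 : (∑ k ∈ range d, z k * fev ξ ξ ((formsE n G).getD k [])) ^ 2 ≤
        (48 * (G.length : ℝ) * ∑ i ∈ range d, ξ i ^ 2) ^ 2 := by
      refine h1.trans ?_
      have h6 : (G.length : ℝ) * (4 * ξ 0 ^ 4 - (G.map (fun g => gev ξ ξ g ^ 2)).sum) ≤ 0 :=
        mul_nonpos_of_nonneg_of_nonpos hm (by linarith)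
      have h7 : (∑ i ∈ range n, ξ i ^ 2) ^ 2 ≤ (∑ i ∈ range d, ξ i ^ 2) ^ 2 :=
        pow_le_pow_left₀ h4 h3 2
      have h8 : (48 * (G.length : ℝ)) ^ 2 * (∑ i ∈ range n, ξ i ^ 2) ^ 2 ≤
          (48 * (G.length : ℝ)) ^ 2 * (∑ i ∈ range d, ξ i ^ 2) ^ 2 :=
        mul_le_mul_of_nonneg_left h7 (sq_nonneg _)
      rw [mul_pow]
      linarith
    have h9 : 0 ≤ 48 * (G.length : ℝ) * ∑ i ∈ range d, ξ i ^ 2 := by
      have := h4.trans h3
      positivity
    exact abs_le_of_sq_le_sq h5 h9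
  have k1 := (abs_le.1 (key fun i => x i + y i)).2
  have k2 := (abs_le.1 (key fun i => x i - y i)).1
  have e1 : ∑ k ∈ range d, z k * fev (fun i => x i + y i) (fun i => x i + y i)
      ((formsE n G).getD k []) - ∑ k ∈ range d, z k * fev (fun i => x i - y i)
      (fun i => x i - y i) ((formsE n G).getD k []) =
      4 * ∑ k ∈ range d, z k * fev x y ((formsE n G).getD k []) := by
    rw [← Finset.sum_sub_distrib, Finset.mul_sum]
    refine Finset.sum_congr rfl fun k _ => ?_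
    rw [← mul_sub, fev_polar]
    ring
  have e2 : ∑ i ∈ range d, (x i + y i) ^ 2 + ∑ i ∈ range d, (x i - y i) ^ 2 = 4 := by
    rw [← Finset.sum_add_distrib]
    have : ∀ i, (x i + y i) ^ 2 + (x i - y i) ^ 2 = 2 * x i ^ 2 + 2 * y i ^ 2 := fun i => by ring
    simp_rw [this, Finset.sum_add_distrib, ← Finset.mul_sum]
    rw [hx, hy]
    norm_num
  have e3 : 48 * (G.length : ℝ) * ∑ i ∈ range d, (x i + y i) ^ 2 +
      48 * (G.length : ℝ) * ∑ i ∈ range d, (x i - y i) ^ 2 = 4 * (48 * (G.length : ℝ)) := by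
    rw [← mul_add, e2]
    ring
  linarith

include hG hn hnd hd in
theorem isEx_of_exists (hne : G ≠ []) (x₀ : ℕ → ℝ)
    (h : (G.map (fun g => gev x₀ x₀ g ^ 2)).sum < 4 * x₀ 0 ^ 4) :
    IsEx d (fun i j k => (ten (formsE n G) i j k : ℝ)) (48 * (G.length : ℝ)) := by
  have hm : (0 : ℝ) < G.length := by
    have : 0 < G.length := List.length_pos_iff.2 hne
    exact_mod_cast this
  have hx0 : x₀ 0 ≠ 0 := by
    intro h0
    rw [h0] at h
    have : 0 ≤ (G.map (fun g => gev x₀ x₀ g ^ 2)).sum := by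
      apply List.sum_nonneg
      intro r hr
      obtain ⟨g, _, rfl⟩ := List.mem_map.1 hr
      exact sq_nonneg _
    norm_num at h
    linarith
  obtain ⟨s, hs⟩ : ∃ s, s = ∑ i ∈ range n, x₀ i ^ 2 := ⟨_, rfl⟩
  have hs0 : 0 < s := by
    rw [hs]
    have h1 : x₀ 0 ^ 2 ≤ ∑ i ∈ range n, x₀ i ^ 2 :=
      Finset.single_le_sum (f := fun i => x₀ i ^ 2) (fun i _ => sq_nonneg (x₀ i))
        (Finset.mem_range.2 hn)
    have : 0 < x₀ 0 ^ 2 := by positivity
    linarith
  have hr : Real.sqrt s ^ 2 = s := Real.sq_sqrt hs0.le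
  have hr0 : 0 < Real.sqrt s := Real.sqrt_pos.2 hs0
  obtain ⟨x, hxdef⟩ : ∃ x : ℕ → ℝ, x = fun i => if i < n then x₀ i / Real.sqrt s else 0 :=
    ⟨_, rfl⟩
  have hxn : ∀ i < n, x i = x₀ i / Real.sqrt s := fun i hi => by rw [hxdef]; simp [hi]
  have hxo : ∀ i, n ≤ i → x i = 0 := fun i hi => by rw [hxdef]; simp [not_lt.2 hi]
  have hx : ∑ i ∈ range n, x i ^ 2 = 1 := by
    rw [Finset.sum_congr rfl fun i hi => by rw [hxn i (Finset.mem_range.1 hi), div_pow, hr],
      ← Finset.sum_div, ← hs, div_self hs0.ne']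
  have hxd : ∑ i ∈ range d, x i ^ 2 = 1 := by
    rw [← hx]
    symm
    apply Finset.sum_subset (Finset.range_subset_range.2 hnd)
    intro i _ hi
    rw [hxo i (not_lt.1 (fun h => hi (Finset.mem_range.2 h)))]
    norm_num
  have hgev : ∀ g ∈ G, gev x x g = gev x₀ x₀ g / s := by
    intro g hg
    obtain ⟨⟨a1, a2, a3⟩, ⟨b1, b2, b3⟩, ⟨c1, c2, c3⟩⟩ := hG g hg
    unfold gev tev bev
    rw [hxn _ a2, hxn _ a3, hxn _ b2, hxn _ b3, hxn _ c2, hxn _ c3]
    have : ∀ a b : ℝ, a / Real.sqrt s * (b / Real.sqrt s) = a * b / s := by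
      intro a b
      rw [div_mul_div_comm, ← sq, hr]
    rw [this, this, this, this, this, this]
    ring
  have hlt : (G.map (fun g => gev x x g ^ 2)).sum < 4 * x 0 ^ 4 := by
    have e1 : G.map (fun g => gev x x g ^ 2) = G.map (fun g => gev x₀ x₀ g ^ 2 * (1 / s ^ 2)) :=
      List.map_congr_left fun g hg => by rw [hgev g hg]; ring
    have e2 : x 0 ^ 4 = x₀ 0 ^ 4 * (1 / s ^ 2) := by
      rw [hxn 0 hn, div_pow]
      have : Real.sqrt s ^ 4 = s ^ 2 := by
        calc Real.sqrt s ^ 4 = (Real.sqrt s ^ 2) ^ 2 := by ring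
          _ = s ^ 2 := by rw [hr]
      rw [this]
      ring
    rw [e1, List.sum_map_mul_right, e2, ← mul_assoc]
    exact mul_lt_mul_of_pos_right h (by positivity)
  obtain ⟨A, hA⟩ : ∃ A, A = S x x x x (formsE n G) := ⟨_, rfl⟩
  have hA1 : (48 * (G.length : ℝ)) ^ 2 < A := by
    rw [hA, S_diag x n G hG, hx]
    have : 0 < (G.length : ℝ) * (4 * x 0 ^ 4 - (G.map (fun g => gev x x g ^ 2)).sum) :=
      mul_pos hm (by linarith)
    linarith
  have hA0 : 0 < A := lt_of_le_of_lt (sq_nonneg _) hA1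
  have hsA : Real.sqrt A ^ 2 = A := Real.sq_sqrt hA0.le
  have hsA0 : 0 < Real.sqrt A := Real.sqrt_pos.2 hA0
  refine ⟨x, x, fun k => fev x x ((formsE n G).getD k []) / Real.sqrt A, hxd, hxd, ?_, ?_⟩
  · simp_rw [div_pow, hsA]
    rw [← Finset.sum_div, S_eq_sum _ hd, ← hA, div_self hA0.ne']
  · rw [tv_ten (fok_formsE hn hG) hnd]
    have e1 : ∑ k ∈ range d, fev x x ((formsE n G).getD k []) / Real.sqrt A *
        fev x x ((formsE n G).getD k []) = Real.sqrt A := by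
      have : ∀ k, fev x x ((formsE n G).getD k []) / Real.sqrt A *
        fev x x ((formsE n G).getD k []) = fev x x ((formsE n G).getD k []) ^ 2 / Real.sqrt A :=
        fun k => by ring
      simp_rw [this]
      rw [← Finset.sum_div, S_eq_sum _ hd, ← hA, div_eq_iff hsA0.ne', ← sq, hsA]
    rw [e1]
    exact Real.lt_sqrt_of_sq_lt hA1

include hG hn hnd hd in
/-- **The main equivalence.** -/
theorem isEx_iff (hne : G ≠ []) :
    IsEx d (fun i j k => (ten (formsE n G) i j k : ℝ)) (48 * (G.length : ℝ)) ↔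
      ∃ x : ℕ → ℝ, (G.map (fun g => gev x x g ^ 2)).sum < 4 * x 0 ^ 4 :=
  ⟨exists_of_isEx hG hn hnd hd, fun ⟨x, hx⟩ => isEx_of_exists hG hn hnd hd hne x hx⟩

end

end Run7.h470.Spec
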