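import Pool.Agent.Run7.h470.Spec.Defs
import Pool.Agent.Run7.h470.Spec.Ten
import Pool.Agent.Run7.h470.Spec.Sys

/-!
# The spectral norm of a tensor: the instance of a system of constraints
-/

set_option autoImplicit false

namespace Run7.h470.Spec

open Finset Pool.Agent.H78R3.TSV Pool.Agent.NPC

theorem abs_le_one_of_sum {d : ℕ} {x : Fin d → ℝ} (h : ∑ i, x i ^ 2 = 1) (i : Fin d) :
    |x i| ≤ 1 := by
  have h1 : x i ^ 2 ≤ ∑ i, x i ^ 2 :=
    Finset.single_le_sum (f := fun i => x i ^ 2) (fun i _ => sq_nonneg (x i)) (Finset.mem_univ i)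
  rw [h] at h1
  exact (sq_le_one_iff_abs_le_one _).1 h1

theorem bddAbove_values {d : ℕ} (t : Fin d → Fin d → Fin d → ℝ) :
    BddAbove {r | ∃ x y z : EuclideanSpace ℝ (Fin d), ‖x‖ = 1 ∧ ‖y‖ = 1 ∧ ‖z‖ = 1 ∧
      r = |∑ i, ∑ j, ∑ k, t i j k * x i * y j * z k|} := by
  refine ⟨∑ i, ∑ j, ∑ k, |t i j k|, ?_⟩
  rintro r ⟨x, y, z, hx, hy, hz, rfl⟩
  rw [norm_eq_one_iff] at hx hy hz
  refine (Finset.abs_sum_le_sum_abs _ _).trans (Finset.sum_le_sum fun i _ => ?_)
  refine (Finset.abs_sum_le_sum_abs _ _).trans (Finset.sum_le_sum fun j _ => ?_)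
  refine (Finset.abs_sum_le_sum_abs _ _).trans (Finset.sum_le_sum fun k _ => ?_)
  rw [abs_mul, abs_mul, abs_mul]
  have h1 := abs_le_one_of_sum hx i
  have h2 := abs_le_one_of_sum hy j
  have h3 := abs_le_one_of_sum hz k
  have h4 : |t i j k| * |x i| ≤ |t i j k| := mul_le_of_le_one_right (abs_nonneg _) h1
  have h5 : |t i j k| * |x i| * |y j| ≤ |t i j k| * |x i| :=
    mul_le_of_le_one_right (by positivity) h2
  have h6 : |t i j k| * |x i| * |y j| * |z k| ≤ |t i j k| * |x i| * |y j| :=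
    mul_le_of_le_one_right (by positivity) h3
  exact h6.trans (h5.trans h4)

theorem tv_fin {d : ℕ} (t : ℕ → ℕ → ℕ → ℝ) (x y z : ℕ → ℝ) :
    ∑ i : Fin d, ∑ j : Fin d, ∑ k : Fin d, t i j k * x i * y j * z k = tv d t x y z := by
  unfold tv
  rw [← Fin.sum_univ_eq_sum_range (fun i => ∑ j ∈ range d, ∑ k ∈ range d, t i j k * x i * y j * z k)]
  refine Finset.sum_congr rfl fun i _ => ?_
  rw [← Fin.sum_univ_eq_sum_range (fun j => ∑ k ∈ range d, t i j k * x i * y j * z k)]
  refine Finset.sum_congr rfl fun j _ => ?_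
  rw [← Fin.sum_univ_eq_sum_range (fun k => t i j k * x i * y j * z k)]

theorem tv_neg (d : ℕ) (t : ℕ → ℕ → ℕ → ℝ) (x y z : ℕ → ℝ) :
    tv d t x y (fun k => - z k) = - tv d t x y z := by
  unfold tv
  simp only [mul_neg, Finset.sum_neg_distrib]

/-- The spectral norm exceeds `σ` if and only if the trilinear form exceeds `σ` on unit vectors. -/
theorem lt_spectralNorm_iff {d : ℕ} (t : ℕ → ℕ → ℕ → ℝ) {σ : ℝ} (hσ : 0 ≤ σ) :
    σ < spectralNorm (fun i j k : Fin d => t i j k) ↔ IsEx d t σ := by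
  unfold spectralNorm
  constructor
  · intro h
    have hne : {r | ∃ x y z : EuclideanSpace ℝ (Fin d), ‖x‖ = 1 ∧ ‖y‖ = 1 ∧ ‖z‖ = 1 ∧
        r = |∑ i : Fin d, ∑ j : Fin d, ∑ k : Fin d, t i j k * x i * y j * z k|}.Nonempty := by
      by_contra hcon
      rw [Set.not_nonempty_iff_eq_empty] at hcon
      rw [hcon, Real.sSup_empty] at h
      linarith
    obtain ⟨r, ⟨x, y, z, hx, hy, hz, rfl⟩, hr⟩ := exists_lt_of_lt_csSup hne h
    rw [norm_eq_one_iff] at hx hy hz
    obtain ⟨X, hX⟩ : ∃ X : ℕ → ℝ, ∀ i : Fin d, X i = x i :=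
      ⟨fun i => if h : i < d then x ⟨i, h⟩ else 0, fun i => by simp⟩
    obtain ⟨Y, hY⟩ : ∃ Y : ℕ → ℝ, ∀ i : Fin d, Y i = y i :=
      ⟨fun i => if h : i < d then y ⟨i, h⟩ else 0, fun i => by simp⟩
    obtain ⟨Z, hZ⟩ : ∃ Z : ℕ → ℝ, ∀ i : Fin d, Z i = z i :=
      ⟨fun i => if h : i < d then z ⟨i, h⟩ else 0, fun i => by simp⟩
    have e : ∑ i : Fin d, ∑ j : Fin d, ∑ k : Fin d, t i j k * x i * y j * z k = tv d t X Y Z := by
      rw [← tv_fin]
      simp_rw [hX, hY, hZ]
    have eX : ∑ i ∈ range d, X i ^ 2 = 1 := by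
      rw [← Fin.sum_univ_eq_sum_range (fun i => X i ^ 2)]; simpa only [hX] using hx
    have eY : ∑ i ∈ range d, Y i ^ 2 = 1 := by
      rw [← Fin.sum_univ_eq_sum_range (fun i => Y i ^ 2)]; simpa only [hY] using hy
    have eZ : ∑ i ∈ range d, Z i ^ 2 = 1 := by
      rw [← Fin.sum_univ_eq_sum_range (fun i => Z i ^ 2)]; simpa only [hZ] using hz
    rw [e] at hr
    rcases lt_abs.1 hr with hr | hr
    · exact ⟨X, Y, Z, eX, eY, eZ, hr⟩
    · refine ⟨X, Y, fun k => - Z k, eX, eY, ?_, ?_⟩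
      · simpa only [neg_sq] using eZ
      · rw [tv_neg]; exact hr
  · rintro ⟨x, y, z, hx, hy, hz, h⟩
    refine lt_csSup_of_lt (bddAbove_values _) (a := |tv d t x y z|)
      ⟨WithLp.toLp 2 fun i => x i, WithLp.toLp 2 fun i => y i, WithLp.toLp 2 fun i => z i,
      ?_, ?_, ?_, ?_⟩ (lt_abs.2 (Or.inl h))
    · rw [norm_eq_one_iff, ← hx]
      exact Fin.sum_univ_eq_sum_range (fun i => x i ^ 2) d
    · rw [norm_eq_one_iff, ← hy]
      exact Fin.sum_univ_eq_sum_range (fun i => y i ^ 2) d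
    · rw [norm_eq_one_iff, ← hz]
      exact Fin.sum_univ_eq_sum_range (fun i => z i ^ 2) d
    · rw [← tv_fin]

theorem isEx_congr {d : ℕ} {t t' : ℕ → ℕ → ℕ → ℝ} {σ : ℝ}
    (h : ∀ i < d, ∀ j < d, ∀ k < d, t i j k = t' i j k) : IsEx d t σ ↔ IsEx d t' σ := by
  have e : ∀ x y z : ℕ → ℝ, tv d t x y z = tv d t' x y z := by
    intro x y z
    unfold tv
    exact Finset.sum_congr rfl fun i hi => Finset.sum_congr rfl fun j hj =>
      Finset.sum_congr rfl fun k hk => by
        rw [h i (Finset.mem_range.1 hi) j (Finset.mem_range.1 hj) k (Finset.mem_range.1 hk)]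
  unfold IsEx
  simp only [e]

theorem exceed_iff (q : List (List (List ℚ)) × ℚ) : SpectralNormExceed q ↔
    IsCube q.1 ∧ 0 < q.2 ∧ IsEx q.1.length (fun i j k => ((entry q.1 i j k : ℚ) : ℝ))
      (q.2 : ℝ) := by
  unfold SpectralNormExceed
  refine and_congr_right fun _ => and_congr_right fun h => ?_
  exact lt_spectralNorm_iff (fun i j k => ((entry q.1 i j k : ℚ) : ℝ))
    (by exact_mod_cast h.le)

theorem not_bound_iff (q : List (List (List ℚ)) × ℚ) : ¬ SpectralNormBound q ↔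
    ¬ IsCube q.1 ∨ ¬ 0 < q.2 ∨ SpectralNormExceed q := by
  unfold SpectralNormBound SpectralNormExceed
  rw [not_and_or, not_and_or, not_le]
  constructor
  · rintro (h | h | h)
    · exact Or.inl h
    · exact Or.inr (Or.inl h)
    · by_cases h1 : IsCube q.1
      · by_cases h2 : 0 < q.2
        · exact Or.inr (Or.inr ⟨h1, h2, h⟩)
        · exact Or.inr (Or.inl h2)
      · exact Or.inl h1
  · rintro (h | h | h)
    · exact Or.inl h
    · exact Or.inr (Or.inl h)
    · exact Or.inr (Or.inr h.2.2)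

/-! ### The instance -/

/-- The dimension of the tensor. -/
def dimE (S : List ER.Con) : ℕ := vn S + (formsE (vn S) (gsys S)).length

/-- The instance of a system: a tensor and a number. -/
def instE (S : List ER.Con) : List (List (List ℚ)) × ℚ :=
  (tenL (dimE S) (formsE (vn S) (gsys S)), (((48 * (gsys S).length : ℕ) : ℤ) : ℚ))

theorem instE_pos (S : List ER.Con) : 0 < (instE S).2 := by
  have hpos : 0 < (gsys S).length := List.length_pos_iff.2 (gsys_ne_nil S)
  have h2 : (0 : ℚ) < (((48 * (gsys S).length : ℕ) : ℤ) : ℚ) := by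
    exact_mod_cast (by omega : 0 < 48 * (gsys S).length)
  unfold instE
  exact h2

theorem instE_cube (S : List ER.Con) : IsCube (instE S).1 := by
  have h := isCube_tenL (dimE S) (formsE (vn S) (gsys S))
  unfold instE
  simp only
  exact h

theorem exceed_tenL (d : ℕ) (L : List (List QT)) (q : ℚ) (hq : 0 < q) :
    SpectralNormExceed (tenL d L, q) ↔ IsEx d (fun i j k => (ten L i j k : ℝ)) (q : ℝ) := by
  rw [exceed_iff]
  have h3 : (tenL d L).length = d := length_tenL _ _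
  simp only [h3]
  have key := isEx_congr (d := d) (t := fun i j k => (ten L i j k : ℝ))
    (t' := fun i j k => ((entry (tenL d L) i j k : ℚ) : ℝ)) (σ := (q : ℝ))
    (fun i hi j hj k hk => by
      show (ten L i j k : ℝ) = ((entry (tenL d L) i j k : ℚ) : ℝ)
      rw [entry_tenL hi hj hk]
      push_cast
      rfl)
  rw [key]
  exact ⟨fun h => h.2.2, fun h => ⟨isCube_tenL _ _, hq, h⟩⟩

/-- **Correctness of the reduction.** -/
theorem sat_iff_exceed (S : List ER.Con) : ER.Sat S ↔ SpectralNormExceed (instE S) := by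
  have hpos : 0 < (gsys S).length := List.length_pos_iff.2 (gsys_ne_nil S)
  have h2 : (0 : ℚ) < (((48 * (gsys S).length : ℕ) : ℤ) : ℚ) := by
    exact_mod_cast (by omega : 0 < 48 * (gsys S).length)
  have h4 : (((((48 * (gsys S).length : ℕ) : ℤ) : ℚ)) : ℝ) = 48 * ((gsys S).length : ℝ) := by
    push_cast
    ring
  unfold instE
  rw [exceed_tenL _ _ _ h2, h4, isEx_iff (gsys_ok S) (vn_pos S) (by unfold dimE; omega)
    (by unfold dimE; omega) (gsys_ne_nil S), exists_iff_sat]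

theorem sat_iff_not_bound (S : List ER.Con) : ER.Sat S ↔ ¬ SpectralNormBound (instE S) := by
  have h1 := instE_cube S
  have h2 := instE_pos S
  have h3 := sat_iff_exceed S
  generalize instE S = q at h1 h2 h3 ⊢
  rw [not_bound_iff, h3]
  exact ⟨fun h => Or.inr (Or.inr h), fun h => (h.resolve_left fun h4 => h4 h1).resolve_left
    fun h4 => h4 h2⟩

end Run7.h470.Spec
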