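import Pool.Agent.Run7.h470.Spec.Prob
import Pool.Agent.H78R3.TSV.Time
import Pool.Agent.R537.HD.PolyT

/-!
# The reduction is computable in polynomial time
-/

set_option autoImplicit false

namespace Pool.Agent.NPC.H470Spec

open Pool.Agent.NPC Pool.Agent.NPC.ER Pool.Agent.H78R3.TSV Run7.h470.Spec
open Pool.Agent.NPC.H78TSV (poly_svars poly_ix upoly_hn poly_forms poly_tenL poly_intToRat)
open Pool.Agent.NPC.R537HD (upoly_Gx)

section

variable {α : Type} [TEnc α]

theorem upoly_nv {S : α → List ER.Con} (hS : Poly S) : UPoly (fun a => nv (S a)) :=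
  UPoly.length (poly_svars hS)

theorem upoly_KK {S : α → List ER.Con} (hS : Poly S) : UPoly (fun a => KK (S a)) := by
  have hm : UPoly (fun a => nv (S a) + 1) := UPoly.add (upoly_nv hS) (UPoly.const 1)
  have hs : UPoly (fun a => (S a).length) := UPoly.length hS
  have hA : UPoly (fun a => Run7.h470.Iso.kA (nv (S a) + 1) (S a).length) :=
    upoly_Gx hm (UPoly.add hs (UPoly.const 4))
  have hB : UPoly (fun a => Run7.h470.Iso.kB 0 (nv (S a) + 1) (S a).length) :=
    upoly_Gx (UPoly.const 0) (upoly_Gx (UPoly.add hm (UPoly.const 1))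
      (UPoly.add (UPoly.add hA hs) (UPoly.const 6)))
  exact UPoly.add (UPoly.add hA hB) (UPoly.const 1)

theorem upoly_wi {S : α → List ER.Con} (hS : Poly S) : UPoly (fun a => wi (S a)) :=
  UPoly.add (UPoly.add (UPoly.mul (UPoly.const 3) (upoly_nv hS)) (upoly_KK hS)) (UPoly.const 1)

theorem upoly_vn {S : α → List ER.Con} (hS : Poly S) : UPoly (fun a => vn (S a)) :=
  UPoly.add (UPoly.add (UPoly.mul (UPoly.const 3) (upoly_nv hS)) (upoly_KK hS)) (UPoly.const 2)

theorem scon_eq (V : List ℕ) (m W : ℕ) (c : ER.Con) : scon V m W c =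
    if c.code.1 = 0 then ((1, ix V c.code.2.1 + m, 0), (-1, W, 0), (0, 0, 0))
    else if c.code.1 = 1 then ((1, ix V c.code.2.1 + m, 0), (1, ix V c.code.2.2.1 + m, 0),
      (-1, ix V c.code.2.2.2 + m, 0))
    else ((1, ix V c.code.2.1 + m, ix V c.code.2.2.1), (-1, ix V c.code.2.2.2 + m, 0),
      (0, 0, 0)) := by
  cases c <;> rfl

theorem poly_scon {V : α → List ℕ} {m W : α → ℕ} {c : α → ER.Con} (hV : Poly V) (hm : Poly m)
    (hW : Poly W) (hc : Poly c) : Poly (fun a => scon (V a) (m a) (W a) (c a)) := by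
  have h0 : Poly (fun a => (c a).code) := poly_con_code hc
  have i1 := poly_ix hV (Poly.fst (Poly.snd h0))
  have i2 := poly_ix hV (Poly.fst (Poly.snd (Poly.snd h0)))
  have i3 := poly_ix hV (Poly.snd (Poly.snd (Poly.snd h0)))
  have z : Poly (fun _ : α => (0 : ℕ)) := Poly.const 0
  refine (Poly.ite (Poly.decide_eq (Poly.fst h0) (Poly.const 0))
    (Poly.pair (Poly.pair (Poly.const 1) (Poly.pair (Poly.add i1 hm) z))
      (Poly.pair (Poly.pair (Poly.const (-1)) (Poly.pair hW z)) (Poly.const _)))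
    (Poly.ite (Poly.decide_eq (Poly.fst h0) (Poly.const 1))
      (Poly.pair (Poly.pair (Poly.const 1) (Poly.pair (Poly.add i1 hm) z))
        (Poly.pair (Poly.pair (Poly.const 1) (Poly.pair (Poly.add i2 hm) z))
          (Poly.pair (Poly.const (-1)) (Poly.pair (Poly.add i3 hm) z))))
      (Poly.pair (Poly.pair (Poly.const 1) (Poly.pair (Poly.add i1 hm) i2))
        (Poly.pair (Poly.pair (Poly.const (-1)) (Poly.pair (Poly.add i3 hm) z))
          (Poly.const _))))).congr
    fun a => (scon_eq _ _ _ _).symm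

theorem poly_gA {m r : α → ℕ} (hm : Poly m) (hr : Poly r) : Poly (fun a => gA (m a) (r a)) := by
  have z : Poly (fun _ : α => (0 : ℕ)) := Poly.const 0
  have h2 : Poly (fun a => 2 * m a) := Poly.mul (Poly.const 2) hm
  have h3 := Poly.succ hr
  exact Poly.pair (Poly.pair (Poly.const 1) (Poly.pair (Poly.add (Poly.add h2 (Poly.const 2)) hr) z))
    (Poly.pair (Poly.pair (Poly.const (-2)) (Poly.pair (Poly.add (Poly.succ h2) hr) z))
      (Poly.pair (Poly.const (-1)) (Poly.pair h3 h3)))

theorem poly_gB {m r : α → ℕ} (hm : Poly m) (hr : Poly r) : Poly (fun a => gB (m a) (r a)) := by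
  have z : Poly (fun _ : α => (0 : ℕ)) := Poly.const 0
  have h2 : Poly (fun a => 3 * m a) := Poly.mul (Poly.const 3) hm
  have h3 := Poly.add (Poly.succ h2) hr
  exact Poly.pair (Poly.pair (Poly.const 1) (Poly.pair (Poly.add (Poly.add h2 (Poly.const 2)) hr) z))
    (Poly.pair (Poly.pair (Poly.const (-1)) (Poly.pair h3 h3)) (Poly.const _))

theorem poly_gC {m W r : α → ℕ} (hm : Poly m) (hW : Poly W) (hr : Poly r) :
    Poly (fun a => gC (m a) (W a) (r a)) := by
  have z : Poly (fun _ : α => (0 : ℕ)) := Poly.const 0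
  have h3 := Poly.succ hr
  exact Poly.pair (Poly.pair (Poly.const 1) (Poly.pair (Poly.add h3 hm) z))
    (Poly.pair (Poly.pair (Poly.const (-1)) (Poly.pair hW h3)) (Poly.const _))

theorem poly_gD {m : α → ℕ} (hm : Poly m) : Poly (fun a => gD (m a)) := by
  have z : Poly (fun _ : α => (0 : ℕ)) := Poly.const 0
  exact Poly.pair (Poly.pair (Poly.const 1) (Poly.pair (Poly.succ (Poly.mul (Poly.const 2) hm)) z))
    (Poly.const _)

theorem poly_gsys {S : α → List ER.Con} (hS : Poly S) : Poly (fun a => gsys (S a)) := by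
  have hm := upoly_nv hS
  have hK := upoly_KK hS
  have hW := upoly_wi hS
  have hV := poly_svars hS
  refine Poly.cons (poly_gD hm.toPoly) (Poly.append ?_ (Poly.append ?_ (Poly.append ?_ ?_)))
  · exact Poly.map (F := fun a r => gA (nv (S a)) r) hm.range
      (poly_gA (hm.toPoly.comp (Poly.fst Poly.id)) (Poly.snd Poly.id))
  · exact Poly.map (F := fun a r => gB (nv (S a)) r) hK.range
      (poly_gB (hm.toPoly.comp (Poly.fst Poly.id)) (Poly.snd Poly.id))
  · exact Poly.map (F := fun a r => gC (nv (S a)) (wi (S a)) r) hm.range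
      (poly_gC (hm.toPoly.comp (Poly.fst Poly.id)) (hW.toPoly.comp (Poly.fst Poly.id))
        (Poly.snd Poly.id))
  · exact Poly.map (F := fun a c => scon (ER.svars (S a)) (nv (S a)) (wi (S a)) c) hS
      (poly_scon (hV.comp (Poly.fst Poly.id)) (hm.toPoly.comp (Poly.fst Poly.id))
        (hW.toPoly.comp (Poly.fst Poly.id)) (Poly.snd Poly.id))

theorem poly_formsE {n : α → ℕ} {G : α → List QC} (hn : UPoly n) (hG : Poly G) :
    Poly (fun a => formsE (n a) (G a)) := by
  refine Poly.append (poly_forms hn hG) ?_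
  exact Poly.map (F := fun (_ : α) (_ : QC) => [((1 : ℤ), ((0 : ℕ), (0 : ℕ)))]) hG (Poly.const _)

theorem poly_instE {S : α → List ER.Con} (hS : Poly S) : Poly (fun a => instE (S a)) := by
  have hG := poly_gsys hS
  have hF := poly_formsE (upoly_vn hS) hG
  refine Poly.pair (poly_tenL (UPoly.add (upoly_vn hS) (UPoly.length hF)) hF) ?_
  exact poly_intToRat (Poly.natCast (Poly.mul (Poly.const 48) (Poly.length hG)))

end

/-- Spectral Norm Exceed is `∃ℝ`-hard. -/
theorem exceed_hard : ERHard (lang SpectralNormExceed) :=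
  ERHard.of_sys (poly_instE Poly.id) sat_iff_exceed

/-- Spectral Norm Bound is `∀ℝ`-hard. -/
theorem bound_hard : ARHard (lang SpectralNormBound) :=
  ARHard.of_sys (poly_instE Poly.id) sat_iff_not_bound

end Pool.Agent.NPC.H470Spec
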